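import Pool.Agent.Helper22.TL.Main
import Pool.Agent.Helper22.TL.NiceP
import Pool.Agent.Helper22.TL.RI1
import Pool.Agent.Helper22.TL.RI2
import Pool.Agent.Helper22.TL.GLOB
import Pool.Agent.Helper22.TL.DIM1
import Pool.Agent.Helper22.TL.DIM
import Pool.Agent.Helper22.TL.FULL
import Pool.Agent.Helper52.TL.T3
import Pool.Agent.Helper91.TL.EXT
import Pool.Agent.Helper91.TL.COX
import Pool.Agent.Helper77.TL.ACT
import Pool.Agent.Helper25.TL.CX
import Pool.Agent.Helper76.TL.CELL
import Pool.Agent.Helper76.TL.CONN
import Pool.Agent.Helper23.TL.GEN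
import Pool.Agent.Helper23.TL.SC
import Pool.Agent.Helper7.TL.LOC2
import Pool.Agent.Helper7.TL.UCON
import Pool.Agent.Helper7.TL.WALL
import Pool.Agent.Helper65.TL.MON
import Pool.Agent.Helper65.TL.CEN
import Pool.Agent.Helper65.TL.FOLD
import Pool.Agent.Helper65.TL.RFL
import Pool.Agent.Helper33.TL.KGEN
import Pool.Agent.Helper59.TL.KORD
import Pool.Agent.Helper59.TL.KREC
import Pool.Agent.Helper59.TL.KGROW
import Pool.Agent.Helper32.TL.PD
import Pool.Agent.Helper32.TL.TF
import Pool.Agent.Helper32.TL.PING
import Pool.Agent.Helper29.TL.H353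
import Pool.Agent.Helper29.TL.H435
import Pool.Agent.Helper29.TL.H535
import Pool.Agent.Helper29.TL.H3335
import Pool.Agent.Helper29.TL.H4335
import Pool.Agent.Helper29.TL.H5335
import Pool.Agent.Helper83.TL.HYP
import Pool.Agent.Helper83.TL.IND
import Pool.Agent.Helper83.TL.REG
import Pool.Agent.Helper19.TL.NUM3
import Pool.Agent.Helper19.TL.NUM4
import Pool.Agent.Helper19.TL.NUM5
import Pool.Agent.Helper13.TL.Vor
import Pool.Agent.Helper13.TL.Cube
import Pool.Agent.Helper13.TL.M34

set_option autoImplicit false

/-!
# Combinatorially regular normal tilings (MP_c8d3bb_co, Q1)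

Every combinatorially regular normal LFC tiling of `E^d`, `d ≥ 3`, is isomorphic to a regular
tiling. (For `d ≤ 2` this was known.)

Proof. The flags are the chambers of the barycentric subdivision of `E^d`. The complement of the
skeleton of codimension three is simply connected, so the automorphism group of the face poset is
the string Coxeter group of the Schlaefli symbol, all its maximal parabolic subgroups are finite,
and it is infinite. So the symbol is `{4,3,...,3,4}`, `{3,4,3,3}`, `{3,3,4,3}` or one of nine
compact hyperbolic ones. Since the tiling is normal the group has polynomial growth, and the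
hyperbolic groups contain three pairwise ultraparallel reflections, so they have exponential
growth. The Euclidean symbols belong to the Voronoi tilings of `Z^4`, `D_4` and
`D_4 ∪ (Z + 1/2)^4`, and the face poset is determined by the group.

The definitions `TL.E`, `TL.IsPoly`, `TL.IsFace`, `TL.LFC`, `TL.FP`, `TL.CombReg`, `TL.Regular`,
`TL.Normal` are in `Pool.Agent.Helper22.TL.Defs`.
-/

namespace Pool.Agent.Results.MP_c8d3bb_co.NormalTilings

open TL

/-- **Theorem.** Every combinatorially regular normal LFC tiling of `E^d`, `d ≥ 3`, is isomorphic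
to a regular LFC tiling of `E^d`. -/
theorem result (d : ℕ) (hd : 3 ≤ d) (𝒯 : Set (Set (E d))) (hL : LFC 𝒯) (hC : CombReg 𝒯)
    (hN : Normal 𝒯) :
    ∃ 𝒯' : Set (Set (E d)), LFC 𝒯' ∧ Regular 𝒯' ∧ Nonempty (FP 𝒯 ≃o FP 𝒯') := by
  have ri1 := ri1_thm
  have ri2 := ri2_thm
  have glob := glob_thm ri1 ri2
  have t3 := T3_thm ri1 glob
  have cov := COV_thm glob
  have dim1 := dim1_thm ri1 glob
  have dim := dim_thm dim1
  have ext := ext_thm dim glob
  have full := full_thm ext cov dim1 glob
  have act := act_thm glob dim1 dim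
  have cx := cx_thm t3 cov dim full glob
  have cell := cell_thm
  have conn := conn_thm
  have wall := wall_thm cell
  have ucon := ucon_thm cell conn
  have loc2 := loc2_thm cell ucon
  have gen := gen_thm cell conn
  have sc := sc_thm cell loc2 mon_thm gen
  have nice := nice_thm glob full act dim cx wall ucon cell sc
  have kord := kord_thm KFREE_thm KGEN_thm KFIN_thm
  have krec := krec_thm KGEN_thm
  have cox := cox_thm
  have hyp := hyp_thm cox (H353_thm ping_thm) (H435_thm ping_thm) (H535_thm ping_thm)
    (H3335_thm ping_thm) (H4335_thm ping_thm) (H5335_thm ping_thm)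
  have reg := reg_thm t3 glob dim cen_thm fold_thm ext
  exact main_thm nice KGEN_thm kord KFIN_thm KUP_thm (kgrow_thm KGEN_thm KFIN_thm) krec
    (pd_thm cox) (tf_thm cox) NUM3_thm NUM4_thm NUM5_thm hyp ind_thm reg
    (cube_thm vor_thm rfl_thm) (m3433_thm vor_thm rfl_thm) (m3343_thm vor_thm rfl_thm)
    d 𝒯 hd hL hC hN

end Pool.Agent.Results.MP_c8d3bb_co.NormalTilings
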